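import Pool.Agent.N408.IB.Stm

/-!
Project IB (helper408), leaf ISO: coordinates in the hyperplane orthogonal to `u` adapted to the axis.
-/

set_option autoImplicit false

open IB408

namespace N942.IB.ISO

theorem t : IB408.S_ISO := by
  intro u hu
  have hax : ‖(ax : E4)‖ = 1 := by simp [ax]
  have hu0 : u ≠ 0 := by
    intro h
    rw [h, norm_zero] at hu
    norm_num at hu
  have : Fact (Module.finrank ℝ E4 = 3 + 1) := ⟨by simp⟩
  have hfr : Module.finrank ℝ ((Submodule.span ℝ {u})ᗮ : Submodule ℝ E4) = 3 :=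
    Submodule.finrank_orthogonal_span_singleton hu0
  have hpmem : (ax : E4) - (inner ℝ u ax : ℝ) • u ∈ (Submodule.span ℝ {u})ᗮ := by
    rw [Submodule.mem_orthogonal_singleton_iff_inner_right]
    rw [inner_sub_right, inner_smul_right, real_inner_self_eq_norm_sq, hu]
    ring
  obtain ⟨p, hp⟩ : ∃ p : ((Submodule.span ℝ {u})ᗮ : Submodule ℝ E4),
      (p : E4) = (ax : E4) - (inner ℝ u ax : ℝ) • u := ⟨⟨_, hpmem⟩, rfl⟩
  have hpv : ∀ v : ((Submodule.span ℝ {u})ᗮ : Submodule ℝ E4),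
      (inner ℝ (v : E4) ax : ℝ) = inner ℝ p v := by
    intro v
    have h0 : (inner ℝ u (v : E4) : ℝ) = 0 :=
      Submodule.mem_orthogonal_singleton_iff_inner_right.1 v.2
    rw [Submodule.coe_inner, hp, inner_sub_left, inner_smul_left, h0, real_inner_comm]
    simp
  have hpn : ‖p‖ ^ 2 = 1 - (inner ℝ u ax : ℝ) ^ 2 := by
    have h1 : ‖p‖ ^ 2 = (inner ℝ (p : E4) (p : E4) : ℝ) := by
      rw [real_inner_self_eq_norm_sq]; rfl
    rw [h1]
    nth_rewrite 2 [hp]
    rw [inner_sub_right, inner_smul_right]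
    have h2 : (inner ℝ (p : E4) u : ℝ) = 0 := by
      rw [real_inner_comm]
      exact Submodule.mem_orthogonal_singleton_iff_inner_right.1 p.2
    have h3 : (inner ℝ (p : E4) ax : ℝ) = 1 - (inner ℝ u ax : ℝ) ^ 2 := by
      rw [hp, inner_sub_left, inner_smul_left, real_inner_self_eq_norm_sq, hax]
      simp
      ring
    rw [h2, h3]
    ring
  have hx : √(1 - (inner ℝ u ax : ℝ) ^ 2) = ‖p‖ := by
    rw [← hpn, Real.sqrt_sq (norm_nonneg _)]
  by_cases hp0 : p = 0
  · refine ⟨((stdOrthonormalBasis ℝ _).reindex (finCongr hfr)).repr, fun v => ?_⟩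
    rw [hx, hp0, norm_zero, zero_mul, hpv v, hp0, inner_zero_left]
  · have hpn0 : ‖p‖ ≠ 0 := norm_ne_zero_iff.2 hp0
    let v0 : Fin 3 → ((Submodule.span ℝ {u})ᗮ : Submodule ℝ E4) := fun _ => (‖p‖)⁻¹ • p
    have hv : Orthonormal ℝ (({0} : Set (Fin 3)).domRestrict v0) := by
      constructor
      · rintro ⟨i, hi⟩
        show ‖(‖p‖)⁻¹ • p‖ = 1
        rw [norm_smul, norm_inv, norm_norm, inv_mul_cancel₀ hpn0]
      · rintro ⟨i, hi⟩ ⟨j, hj⟩ hij
        exfalso
        apply hij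
        rw [Set.mem_singleton_iff] at hi hj
        subst hi; subst hj; rfl
    obtain ⟨b, hb⟩ := Orthonormal.exists_orthonormalBasis_extension_of_card_eq
      (by rw [hfr]; simp) hv
    refine ⟨b.repr, fun v => ?_⟩
    rw [b.repr_apply_apply, hb 0 rfl, hx, hpv v]
    show _ = ‖p‖ * inner ℝ ((‖p‖)⁻¹ • p) v
    rw [real_inner_smul_left, ← mul_assoc, mul_inv_cancel₀ hpn0, one_mul]

end N942.IB.ISO
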